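import Mathlib

/-!
# MP_c7c9bf_co: non-obtuse tetrahedra, the algebra of case A

`c i j` are the negative inner products of the gradients of the barycentric coordinates, `h i` their
squared norms.  If all four feet of the altitudes are in the spot near a vertex of the opposite
face, then there is a flag with parameters in the certified quadrilateral.
-/

set_option autoImplicit false

namespace Pool.Agent.TET.H99

/-- the foot of the altitude at the face `i` is in the spot near the vertex `j` -/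
structure Spot (c : Fin 4 → Fin 4 → ℝ) (h : Fin 4 → ℝ) (i j : Fin 4) : Prop where
  ne : j ≠ i
  big : 8365 / 10000 * h i ≤ c i j
  lo : ∀ k, k ≠ i → k ≠ j → 18 / 1000 * h i ≤ c i k
  hi : ∀ k, k ≠ i → k ≠ j → c i k ≤ 847 / 10000 * h i

/-- the near vertex is mutual -/
theorem near_mutual {c : Fin 4 → Fin 4 → ℝ} {h : Fin 4 → ℝ} (hs : ∀ i j, c i j = c j i)
    (hpos : ∀ i, 0 < h i) (hle : ∀ i j, j ≠ i → c i j ≤ h i) {n : Fin 4 → Fin 4}
    (hn : ∀ i, Spot c h i (n i)) (a : Fin 4) : n (n a) = a := by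
  by_contra hne
  have hb := hn a
  have hc := hn (n a)
  have hd := hn (n (n a))
  have e1 : c (n a) a ≤ 847 / 10000 * h (n a) := hc.hi a (hb.ne).symm (fun h => hne h.symm)
  have e2 := hb.big
  rw [hs] at e2
  have e3 := hc.big
  have p := hpos a
  have p2 := hpos (n (n a))
  have e4 : 18 / 1000 * h (n (n a)) ≤ c (n (n a)) a := by
    by_cases hx : n (n (n a)) = a
    · have := hd.big
      rw [hx] at this
      linarith
    · exact hd.lo a (fun h => hne h.symm) (fun h => hx h.symm)
  have e5 : c (n (n a)) (n a) ≤ h (n (n a)) := hle _ _ (hc.ne).symm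
  rw [hs] at e5
  have e6 : c a (n (n a)) ≤ 847 / 10000 * h a := hb.hi _ hne hc.ne
  rw [hs] at e6
  linarith

/-- case A: the four feet are all in the spot -/
theorem caseA {c : Fin 4 → Fin 4 → ℝ} {h : Fin 4 → ℝ} (hs : ∀ i j, c i j = c j i)
    (h0 : ∀ i j, j ≠ i → 0 ≤ c i j)
    (hh : ∀ i j k l : Fin 4, i ≠ j → i ≠ k → i ≠ l → j ≠ k → j ≠ l → k ≠ l →
      h i = c i j + c i k + c i l)
    (hpos : ∀ i, 0 < h i) (hsp : ∀ i, ∃ j, Spot c h i j) :
    ∃ i j k l : Fin 4, i ≠ j ∧ i ≠ k ∧ i ≠ l ∧ j ≠ k ∧ j ≠ l ∧ k ≠ l ∧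
      0 < h l * h i - c l i ^ 2 ∧
      1 / 60 ≤ c i l / h i ∧ c i l / h i ≤ 1 / 12 ∧
      2 * (c i l / h i) - 1 / 60 ≤ (c l j * h i + c l i * c i j) / (h l * h i - c l i ^ 2) ∧
      (c l j * h i + c l i * c i j) / (h l * h i - c l i ^ 2) ≤ 1 / 6 := by
  choose n hn using hsp
  have hle : ∀ i j, j ≠ i → c i j ≤ h i := by
    intro i j hij
    obtain ⟨k, l, h1, h2, h3, h4, h5⟩ : ∃ k l : Fin 4, i ≠ k ∧ i ≠ l ∧ j ≠ k ∧ j ≠ l ∧ k ≠ l := by
      revert hij
      revert i j
      decide
    rw [hh i j k l hij.symm h1 h2 h3 h4 h5]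
    have := h0 i k h1.symm
    have := h0 i l h2.symm
    linarith
  have hmut := near_mutual hs hpos hle hn
  -- the smallest of the eight small ratios
  let S : Finset (Fin 4 × Fin 4) := Finset.univ.filter (fun p => p.2 ≠ p.1 ∧ p.2 ≠ n p.1)
  have hS : S.Nonempty := by
    obtain ⟨b, hb1, hb2⟩ : ∃ b : Fin 4, b ≠ 0 ∧ b ≠ n 0 := by
      generalize n 0 = m
      revert m
      decide
    exact ⟨(0, b), by simp [S, hb1, hb2]⟩
  obtain ⟨⟨i, l⟩, hil, hmin⟩ := Finset.exists_min_image S (fun p => c p.1 p.2 / h p.1) hS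
  have hil' : l ≠ i ∧ l ≠ n i := by simpa [S] using hil
  obtain ⟨hli, hlj⟩ := hil'
  have hki : n l ≠ i := by
    intro hx
    apply hlj
    rw [← hx, hmut]
  have hkj : n l ≠ n i := by
    intro hx
    apply hli
    rw [← hmut l, hx, hmut]
  have hji : n i ≠ i := (hn i).ne
  have hkl : n l ≠ l := (hn l).ne
  set j := n i with hj
  set k := n l with hk
  have m1 : c i l / h i ≤ c i k / h i := hmin (i, k) (by simp [S, hki, ← hj, hkj])
  have m2 : c i l / h i ≤ c l i / h l := hmin (l, i) (by simp [S, hli.symm, ← hk, hki.symm])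
  have m3 : c i l / h i ≤ c l j / h l := hmin (l, j) (by simp [S, hlj.symm, ← hk, hkj.symm])
  have pi := hpos i
  have pl := hpos l
  have hhi := hh i j k l hji.symm hki.symm hli.symm hkj.symm hlj.symm hkl
  have hhl := hh l i j k hli hlj hkl.symm hji.symm hki.symm hkj.symm
  have bi := (hn i).big
  have bl := (hn l).big
  rw [← hj] at bi
  rw [← hk] at bl
  have lo := (hn i).lo l hli hlj
  -- ratios
  set w := c i l / h i with hw
  set x := c l i / h l with hx
  set y := c l j / h l with hy
  set z := c i k / h i with hz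
  have ew : c i l = w * h i := by rw [hw]; field_simp
  have ex : c l i = x * h l := by rw [hx]; field_simp
  have ey : c l j = y * h l := by rw [hy]; field_simp
  have ez : c i k = z * h i := by rw [hz]; field_simp
  have eij : c i j = (1 - z - w) * h i := by
    rw [ew, ez] at hhi
    linarith
  have w1 : 18 / 1000 ≤ w := by
    rw [hw, le_div_iff₀ pi]
    exact lo
  have zw : z + w ≤ 1635 / 10000 := by
    rw [eij] at bi
    by_contra hc
    push Not at hc
    nlinarith
  have xy : x + y ≤ 1635 / 10000 := by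
    by_contra hc
    push Not at hc
    rw [ex, ey] at hhl
    nlinarith
  have exw : x * h l = w * h i := by rw [← ex, ← ew, hs]
  have hden : h l * h i - c l i ^ 2 = h l * h i * (1 - x * w) := by
    have : c l i ^ 2 = (x * h l) * (w * h i) := by
      rw [exw]
      rw [ex, exw]
      ring
    rw [this]
    ring
  have x1 : x * w ≤ 1 / 30 := by nlinarith
  have x0 : 0 < x := by linarith
  have w0 : 0 < w := by linarith
  have xw0 : 0 < x * w := mul_pos x0 w0
  have hden0 : 0 < h l * h i - c l i ^ 2 := by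
    rw [hden]
    exact mul_pos (mul_pos pl pi) (by linarith)
  have hg : (c l j * h i + c l i * c i j) / (h l * h i - c l i ^ 2) =
      (y + x * (1 - z - w)) / (1 - x * w) := by
    rw [hden, ey, ex, eij]
    have : (1 - x * w) ≠ 0 := by
      intro h
      linarith
    field_simp
  refine ⟨i, j, k, l, hji.symm, hki.symm, hli.symm, hkj.symm, hlj.symm, hkl, hden0, ?_, ?_, ?_, ?_⟩
  · linarith
  · linarith
  · rw [hg, le_div_iff₀ (by linarith)]
    nlinarith
  · rw [hg, div_le_iff₀ (by linarith)]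
    nlinarith

end Pool.Agent.TET.H99
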