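import Pool.Agent.Helper99_TET.NonObtuse

/-!
# MP_c7c9bf_co: covers with an exceptional spot, and the two root statements
-/

set_option autoImplicit false
set_option maxRecDepth 100000

namespace Pool.Agent.TET.H99

open Pool.Agent.TET

/-- all tetrahedra of the triangle with corners `a`, `b`, `c` are good or in `S` -/
def CovS (S : (Fin 3 → Fin 3 → ℝ) → Prop) (A : List ℕ) (a b c : Fin 3 → Fin 3 → ℝ) : Prop :=
  ∀ x y z : ℝ, 0 ≤ x → 0 ≤ y → 0 ≤ z → x + y + z = 1 →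
    S (x • a + y • b + z • c) ∨ GoodV A (x • a + y • b + z • c)

theorem CovS.of {S : (Fin 3 → Fin 3 → ℝ) → Prop} {A : List ℕ} {a b c : Fin 3 → Fin 3 → ℝ}
    (h : Cov A a b c) : CovS S A a b c := fun x y z hx hy hz hs => Or.inr (h x y z hx hy hz hs)

theorem CovS.cyc {S : (Fin 3 → Fin 3 → ℝ) → Prop} {A : List ℕ} {a b c : Fin 3 → Fin 3 → ℝ}
    (h : CovS S A a b c) : CovS S A b c a := by
  intro x y z hx hy hz hs
  have h1 := h z x y hz hx hy (by linarith)
  have e : x • b + y • c + z • a = z • a + x • b + y • c := by abel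
  rw [e]
  exact h1

/-- subdivision at a point of the edge `a b` -/
theorem CovS.split {S : (Fin 3 → Fin 3 → ℝ) → Prop} {A : List ℕ} {a b c m : Fin 3 → Fin 3 → ℝ}
    (hm : m = (1 / 2 : ℝ) • a + (1 / 2 : ℝ) • b) (h1 : CovS S A a m c)
    (h2 : CovS S A m b c) : CovS S A a b c := by
  intro x y z hx hy hz hs
  rcases le_total y x with h | h
  · have h3 := h1 (x - y) (2 * y) z (by linarith) (by linarith) hz (by linarith)
    have e : x • a + y • b + z • c = (x - y) • a + (2 * y) • m + z • c := by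
      rw [hm]
      module
    rw [e]
    exact h3
  · have h3 := h2 (2 * x) (y - x) z (by linarith) (by linarith) hz (by linarith)
    have e : x • a + y • b + z • c = (2 * x) • m + (y - x) • b + z • c := by
      rw [hm]
      module
    rw [e]
    exact h3

theorem CovS.mid {S : (Fin 3 → Fin 3 → ℝ) → Prop} {A : List ℕ} {a b c m : QV}
    (h : midV a b m = true) (h1 : CovS S A (vq a) (vq m) (vq c))
    (h2 : CovS S A (vq m) (vq b) (vq c)) : CovS S A (vq a) (vq b) (vq c) :=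
  CovS.split (midV_vq h) h1 h2

/-- the exceptional spot of the family F -/
def SF (V : Fin 3 → Fin 3 → ℝ) : Prop :=
  18 / 1000 ≤ V 2 1 ∧ V 2 0 ≤ 847 / 10000 ∧ V 2 0 + V 2 1 ≤ 1635 / 10000

theorem SF.conv {a b c : Fin 3 → Fin 3 → ℝ} (ha : SF a) (hb : SF b) (hc : SF c) {x y z : ℝ}
    (hx : 0 ≤ x) (hy : 0 ≤ y) (hz : 0 ≤ z) (hs : x + y + z = 1) :
    SF (x • a + y • b + z • c) := by
  obtain ⟨a1, a2, a3⟩ := ha
  obtain ⟨b1, b2, b3⟩ := hb
  obtain ⟨c1, c2, c3⟩ := hc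
  refine ⟨?_, ?_, ?_⟩
  · show 18 / 1000 ≤ x * a 2 1 + y * b 2 1 + z * c 2 1
    nlinarith [mul_le_mul_of_nonneg_left a1 hx, mul_le_mul_of_nonneg_left b1 hy,
      mul_le_mul_of_nonneg_left c1 hz]
  · show x * a 2 0 + y * b 2 0 + z * c 2 0 ≤ 847 / 10000
    nlinarith [mul_le_mul_of_nonneg_left a2 hx, mul_le_mul_of_nonneg_left b2 hy,
      mul_le_mul_of_nonneg_left c2 hz]
  · show x * a 2 0 + y * b 2 0 + z * c 2 0 + (x * a 2 1 + y * b 2 1 + z * c 2 1) ≤ 1635 / 10000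
    nlinarith [mul_le_mul_of_nonneg_left a3 hx, mul_le_mul_of_nonneg_left b3 hy,
      mul_le_mul_of_nonneg_left c3 hz]

/-- the integer test of the spot -/
def spc (a : QV) : Bool :=
  Bool.and (Nat.ble (Nat.add 245760000 552960) (Nat.mul 1000 a.g.c))
    (Bool.and (Nat.ble (Nat.mul 10000 a.g.b) (Nat.add 2457600000 26019840))
      (Nat.ble (Nat.mul 10000 (Nat.add a.g.b a.g.c)) (Nat.add 4915200000 50227200)))

theorem SF_vq {a : QV} (h : spc a = true) : SF (vq a) := by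
  obtain ⟨h1, h2⟩ := bAnd.1 h
  obtain ⟨h3, h4⟩ := bAnd.1 h2
  have g1 : 245760000 + 552960 ≤ 1000 * a.g.c := Nat.le_of_ble_eq_true h1
  have g2 : 10000 * a.g.b ≤ 2457600000 + 26019840 := Nat.le_of_ble_eq_true h3
  have g3 : 10000 * (a.g.b + a.g.c) ≤ 4915200000 + 50227200 := Nat.le_of_ble_eq_true h4
  have e1 : (245760000 : ℝ) + 552960 ≤ 1000 * a.g.c := by exact_mod_cast g1
  have e2 : (10000 : ℝ) * a.g.b ≤ 2457600000 + 26019840 := by exact_mod_cast g2
  have e3 : (10000 : ℝ) * (a.g.b + a.g.c) ≤ 4915200000 + 50227200 := by exact_mod_cast g3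
  refine ⟨?_, ?_, ?_⟩
  · show 18 / 1000 ≤ ((a.g.c : ℝ) - 245760) / 30720
    linarith
  · show ((a.g.b : ℝ) - 245760) / 30720 ≤ 847 / 10000
    linarith
  · show ((a.g.b : ℝ) - 245760) / 30720 + ((a.g.c : ℝ) - 245760) / 30720 ≤ 1635 / 10000
    linarith

theorem CovS.spot {A : List ℕ} {a b c : QV} (h : Bool.and (spc a) (Bool.and (spc b) (spc c)) = true) :
    CovS SF A (vq a) (vq b) (vq c) := by
  obtain ⟨h1, h2⟩ := bAnd.1 h
  obtain ⟨h3, h4⟩ := bAnd.1 h2
  intro x y z hx hy hz hs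
  exact Or.inl ((SF_vq h1).conv (SF_vq h3) (SF_vq h4) hx hy hz hs)

/-- the family F from one root triangle -/
theorem HF_of_cov (h : CovS SF [0, 7, 4, 3] (famF (1 / 3) (1 / 3)) (famF (1 / 2) 0) (famF 0 0)) :
    HF := by
  intro u v w hs hw h1 h2 hspot
  have h3 := h (3 * w) (2 * (v - w)) (1 - w - 2 * v) (by linarith) (by linarith) (by linarith)
    (by ring)
  have e : (3 * w) • famF (1 / 3) (1 / 3) + (2 * (v - w)) • famF (1 / 2) 0 +
      (1 - w - 2 * v) • famF 0 0 = famF v w := by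
    funext i j
    fin_cases i <;> fin_cases j
    · show (3 * w) * 1 + (2 * (v - w)) * 1 + (1 - w - 2 * v) * 1 = 1
      ring
    · show (3 * w) * 0 + (2 * (v - w)) * 0 + (1 - w - 2 * v) * 0 = 0
      ring
    · show (3 * w) * 0 + (2 * (v - w)) * 0 + (1 - w - 2 * v) * 0 = 0
      ring
    · show (3 * w) * 0 + (2 * (v - w)) * 0 + (1 - w - 2 * v) * 0 = 0
      ring
    · show (3 * w) * 1 + (2 * (v - w)) * 1 + (1 - w - 2 * v) * 1 = 1
      ring
    · show (3 * w) * 0 + (2 * (v - w)) * 0 + (1 - w - 2 * v) * 0 = 0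
      ring
    · show (3 * w) * (1 / 3) + (2 * (v - w)) * (1 / 2) + (1 - w - 2 * v) * 0 = v
      ring
    · show (3 * w) * (1 / 3) + (2 * (v - w)) * 0 + (1 - w - 2 * v) * 0 = w
      ring
    · show (3 * w) * 1 + (2 * (v - w)) * 1 + (1 - w - 2 * v) * 1 = 1
      ring
  rw [e] at h3
  refine h3.resolve_left ?_
  rintro ⟨q1, q2, q3⟩
  have q1' : 18 / 1000 ≤ w := q1
  have q2' : v ≤ 847 / 10000 := q2
  have q3' : v + w ≤ 1635 / 10000 := q3
  exact hspot ⟨q1', q2', by linarith⟩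

/-- the family P from two root triangles -/
theorem HP_of_cov
    (h1 : Cov [0, 7, 2, 5] (famP (1 / 60) (1 / 60)) (famP (1 / 6) (1 / 60)) (famP (1 / 6) (1 / 12)))
    (h2 : Cov [0, 7, 2, 5] (famP (1 / 60) (1 / 60)) (famP (1 / 6) (1 / 12))
      (famP (3 / 20) (1 / 12))) : HP := by
  intro g w w1 w2 g1 g2
  rcases le_total (w - 1 / 60) (4 / 9 * (g - 1 / 60)) with h3 | h3
  · refine CovP h1 (x := 1 - 20 / 3 * (g - 1 / 60)) (y := 20 / 3 * (g - 1 / 60) - 15 * (w - 1 / 60))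
      (z := 15 * (w - 1 / 60)) ?_ ?_ ?_ ?_ ?_ ?_ <;> linarith
  · refine CovP h2 (x := 1 - 15 * (w - 1 / 60)) (y := 60 * (g - 2 * w + 1 / 60))
      (z := 15 * (w - 1 / 60) - 60 * (g - 2 * w + 1 / 60)) ?_ ?_ ?_ ?_ ?_ ?_ <;> linarith

end Pool.Agent.TET.H99
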