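import Pool.Agent.Helper99_TET.NonObtuse

/-!
# MP_c7c9bf_co: the final statements of stage 2
-/

set_option autoImplicit false

namespace Pool.Agent.TET.H99

open MeasureTheory Set Filter Pool.Agent.UL3 Pool.Agent.UL3.H88 Pool.Agent.TET
open scoped ENNReal Topology RealInnerProductSpace

theorem range4 (P : Fin 4 → E3) : Set.range P = {P 0, P 1, P 2, P 3} := by
  ext x
  simp only [mem_range, mem_insert_iff, mem_singleton_iff]
  constructor
  · rintro ⟨i, rfl⟩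
    fin_cases i
    · exact Or.inl rfl
    · exact Or.inr (Or.inl rfl)
    · exact Or.inr (Or.inr (Or.inl rfl))
    · exact Or.inr (Or.inr (Or.inr rfl))
  · rintro (h | h | h | h)
    · exact ⟨0, h.symm⟩
    · exact ⟨1, h.symm⟩
    · exact ⟨2, h.symm⟩
    · exact ⟨3, h.symm⟩

/-- (1) one foot in the face outside the three spots, (2) all four feet in the faces -/
theorem final (hF : HF) (hP : HP) :
    (∀ (A B C D : E3) (a b c : ℝ), AffineIndependent ℝ ![A, B, C, D] →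
      0 ≤ a → 0 ≤ b → 0 ≤ c → a + b + c = 1 →
      inner ℝ (D - (a • A + b • B + c • C)) (B - A) = 0 →
      inner ℝ (D - (a • A + b • B + c • C)) (C - A) = 0 →
      ¬ (8365 / 10000 ≤ a ∧ (18 / 1000 ≤ b ∧ b ≤ 847 / 10000) ∧
        (18 / 1000 ≤ c ∧ c ≤ 847 / 10000)) →
      ¬ (8365 / 10000 ≤ b ∧ (18 / 1000 ≤ a ∧ a ≤ 847 / 10000) ∧
        (18 / 1000 ≤ c ∧ c ≤ 847 / 10000)) →
      ¬ (8365 / 10000 ≤ c ∧ (18 / 1000 ≤ a ∧ a ≤ 847 / 10000) ∧
        (18 / 1000 ≤ b ∧ b ≤ 847 / 10000)) →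
      Dense (convexHull ℝ {A, B, C, D})) ∧
    (∀ (P : Fin 4 → E3) (f : Fin 4 → Fin 4 → ℝ), AffineIndependent ℝ P →
      (∀ i, f i i = 0) → (∀ i, ∑ j, f i j = 1) → (∀ i j, 0 ≤ f i j) →
      (∀ i j k, j ≠ i → k ≠ i → inner ℝ (P i - ∑ m, f i m • P m) (P j - P k) = 0) →
      Dense (convexHull ℝ (Set.range P))) := by
  refine ⟨?_, ?_⟩
  · intro A B C D a b c h ha hb hc hs o1 o2 h1 h2 h3
    exact hF.dense ⟨h, hs, o1, o2⟩ ha hb hc h1 h2 h3
  · intro P f h hd hs h0 ho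
    rw [range4]
    exact Alt.dense hF hP ⟨h, hd, hs, ho⟩ h0

end Pool.Agent.TET.H99
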