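import Pool.Agent.Helper38_TET.Foot

/-!
# MP_c7c9bf_co: the flag family P

The flag is the line `A B` in the plane `A B C`; `g` is the coordinate at `B` of the foot of `C` on
the line `A B`, and `w` the coordinate at `C` of the foot of `D` on the plane `A B C`.
-/

set_option autoImplicit false

namespace Pool.Agent.TET.H99

open MeasureTheory Set Filter Pool.Agent.UL3 Pool.Agent.UL3.H88 Pool.Agent.TET
open scoped ENNReal Topology RealInnerProductSpace

/-- the edge vectors of the flag `(g, w)` -/
def famP (g w : ℝ) : Fin 3 → Fin 3 → ℝ := ![![1, 0, 0], ![g, 1, 0], ![0, w, 1]]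

/-- the reflection in the plane of the flag family is good at `(g, w)` -/
def GP (g w : ℝ) : Prop := GoodV [0, 7, 2, 5] (famP g w)

theorem transferP {A B C D : E3} (h : AffineIndependent ℝ ![A, B, C, D]) {g w : ℝ}
    (h0 : ⟪C - A - g • (B - A), B - A⟫ = 0)
    (h1 : ⟪D - A - w • (C - A - g • (B - A)), C - A - g • (B - A)⟫ = 0) (hg : GP g w) :
    Dense (convexHull ℝ {A, B, C, D}) := by
  refine frame_transfer h hg ![B - A, C - A - g • (B - A), D - A - w • (C - A - g • (B - A))]
    ?_ ?_ ?_ ?_
  · unfold Qm famP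
    simp [Fin.sum_univ_three]
  · unfold Qm famP
    rw [Fin.sum_univ_three]
    show g • (B - A) + (1 : ℝ) • (C - A - g • (B - A)) +
      (0 : ℝ) • (D - A - w • (C - A - g • (B - A))) = C - A
    module
  · unfold Qm famP
    rw [Fin.sum_univ_three]
    show (0 : ℝ) • (B - A) + w • (C - A - g • (B - A)) +
      (1 : ℝ) • (D - A - w • (C - A - g • (B - A))) = D - A
    module
  · have h0' := h0
    have h1' := h1
    rw [real_inner_comm] at h0' h1'
    intro τ hτ a b hab
    simp only [List.mem_cons, List.not_mem_nil, or_false] at hτ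
    have e0 : ∀ a b : Fin 3, (a = 1 ∧ b ≠ 1) ∨ (a ≠ 1 ∧ b = 1) →
        ⟪(![B - A, C - A - g • (B - A), D - A - w • (C - A - g • (B - A))] : Fin 3 → E3) a,
          (![B - A, C - A - g • (B - A), D - A - w • (C - A - g • (B - A))] : Fin 3 → E3) b⟫ =
            0 := by
      intro a b hab
      fin_cases a <;> fin_cases b
      · exact absurd hab (by decide)
      · exact h0'
      · exact absurd hab (by decide)
      · exact h0
      · exact absurd hab (by decide)
      · exact h1'
      · exact absurd hab (by decide)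
      · exact h1
      · exact absurd hab (by decide)
    have e1 : ∀ τ : ℕ, τ = 0 ∨ τ = 7 ∨ τ = 2 ∨ τ = 5 → sgn τ 0 = sgn τ 2 := by
      rintro τ (rfl | rfl | rfl | rfl) <;> simp [sgn, sb]
    refine e0 a b ?_
    have e2 := e1 τ hτ
    fin_cases a <;> fin_cases b
    · exact absurd rfl hab
    · exact Or.inr ⟨by decide, rfl⟩
    · exact absurd e2 hab
    · exact Or.inl ⟨rfl, by decide⟩
    · exact absurd rfl hab
    · exact Or.inl ⟨rfl, by decide⟩
    · exact absurd e2.symm hab
    · exact Or.inr ⟨by decide, rfl⟩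
    · exact absurd rfl hab

/-- a triangle of the parameter plane -/
theorem CovP {a1 a2 b1 b2 c1 c2 : ℝ}
    (h : Cov [0, 7, 2, 5] (famP a1 a2) (famP b1 b2) (famP c1 c2)) {x y z g w : ℝ} (hx : 0 ≤ x)
    (hy : 0 ≤ y) (hz : 0 ≤ z) (hs : x + y + z = 1) (hg : g = x * a1 + y * b1 + z * c1)
    (hw : w = x * a2 + y * b2 + z * c2) : GP g w := by
  have h1 := h x y z hx hy hz hs
  have e : x • famP a1 a2 + y • famP b1 b2 + z • famP c1 c2 = famP g w := by
    funext i j
    fin_cases i <;> fin_cases j
    · show x * 1 + y * 1 + z * 1 = 1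
      linarith
    · show x * 0 + y * 0 + z * 0 = 0
      ring
    · show x * 0 + y * 0 + z * 0 = 0
      ring
    · exact hg.symm
    · show x * 1 + y * 1 + z * 1 = 1
      linarith
    · show x * 0 + y * 0 + z * 0 = 0
      ring
    · show x * 0 + y * 0 + z * 0 = 0
      ring
    · exact hw.symm
    · show x * 1 + y * 1 + z * 1 = 1
      linarith
  rw [e] at h1
  exact h1

/-- the edge vectors with parameters `(p, q) / 30720` -/
theorem vq_famP (a b c p q : ℕ) :
    vq ⟨⟨a, 276480, 245760, 245760⟩, ⟨b, p, 276480, 245760⟩, ⟨c, 245760, q, 276480⟩⟩ =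
      famP (((p : ℝ) - 245760) / 30720) (((q : ℝ) - 245760) / 30720) := by
  funext i j
  fin_cases i <;> fin_cases j
  · show (((276480 : ℕ) : ℝ) - 245760) / 30720 = 1
    norm_num
  · show (((245760 : ℕ) : ℝ) - 245760) / 30720 = 0
    norm_num
  · show (((245760 : ℕ) : ℝ) - 245760) / 30720 = 0
    norm_num
  · rfl
  · show (((276480 : ℕ) : ℝ) - 245760) / 30720 = 1
    norm_num
  · show (((245760 : ℕ) : ℝ) - 245760) / 30720 = 0
    norm_num
  · show (((245760 : ℕ) : ℝ) - 245760) / 30720 = 0
    norm_num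
  · rfl
  · show (((276480 : ℕ) : ℝ) - 245760) / 30720 = 1
    norm_num

end Pool.Agent.TET.H99
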