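import Pool.Agent.Helper99_TET.CF
import Pool.Agent.Helper99_TET.CP
import Pool.Agent.Helper99_TET.Final

/-!
# MP_c7c9bf_co: stage 2, the theorems without hypotheses
-/

set_option autoImplicit false
set_option maxRecDepth 100000

namespace Pool.Agent.TET.H99

open MeasureTheory Set Filter Pool.Agent.UL3 Pool.Agent.UL3.H88 Pool.Agent.TET
open scoped ENNReal Topology RealInnerProductSpace

theorem hF : HF := by
  have h := CF_root0
  simp only [vq_famF] at h
  norm_num at h
  exact HF_of_cov h

theorem hP : HP := by
  have h1 := CP_root0
  have h2 := CP_root1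
  simp only [vq_famP] at h1 h2
  norm_num at h1 h2
  exact HP_of_cov h1 h2

end Pool.Agent.TET.H99
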