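import Pool.Agent.Helper99_TET.FrameP
import Pool.Agent.Helper99_TET.CaseA

/-!
# MP_c7c9bf_co: tetrahedra all of whose altitudes have their feet in the opposite faces
-/

set_option autoImplicit false

namespace Pool.Agent.TET.H99

open MeasureTheory Set Filter Pool.Agent.UL3 Pool.Agent.UL3.H88 Pool.Agent.TET
open scoped ENNReal Topology RealInnerProductSpace

/-- `f i j` is the barycentric coordinate at `j` of the foot of the altitude from `P i` -/
structure Alt (P : Fin 4 → E3) (f : Fin 4 → Fin 4 → ℝ) : Prop where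
  aff : AffineIndependent ℝ P
  diag : ∀ i, f i i = 0
  sum : ∀ i, ∑ j, f i j = 1
  orth : ∀ i j k, j ≠ i → k ≠ i → ⟪P i - ∑ m, f i m • P m, P j - P k⟫ = 0

theorem univ4 : ∀ {i j k l : Fin 4}, i ≠ j → i ≠ k → i ≠ l → j ≠ k → j ≠ l → k ≠ l →
    (Finset.univ : Finset (Fin 4)) = {i, j, k, l} := by decide

theorem sum4 {M : Type*} [AddCommMonoid M] (F : Fin 4 → M) {i j k l : Fin 4} (hij : i ≠ j)
    (hik : i ≠ k) (hil : i ≠ l) (hjk : j ≠ k) (hjl : j ≠ l) (hkl : k ≠ l) :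
    ∑ m, F m = F i + F j + F k + F l := by
  rw [univ4 hij hik hil hjk hjl hkl, Finset.sum_insert (by simp [hij, hik, hil]),
    Finset.sum_insert (by simp [hjk, hjl]), Finset.sum_insert (by simp [hkl]),
    Finset.sum_singleton, add_assoc, add_assoc]

theorem exists_one : ∀ i : Fin 4, ∃ j : Fin 4, i ≠ j := by decide

theorem exists_two : ∀ {i j : Fin 4}, i ≠ j →
    ∃ k l : Fin 4, i ≠ k ∧ i ≠ l ∧ j ≠ k ∧ j ≠ l ∧ k ≠ l := by decide

theorem mem_two : ∀ {i j k l m : Fin 4}, i ≠ j → i ≠ k → i ≠ l → j ≠ k → j ≠ l → k ≠ l →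
    m ≠ i → m ≠ j → m = k ∨ m = l := by decide

/-- the altitude -/
noncomputable def av (P : Fin 4 → E3) (f : Fin 4 → Fin 4 → ℝ) (i : Fin 4) : E3 :=
  P i - ∑ m, f i m • P m

variable {P : Fin 4 → E3} {f : Fin 4 → Fin 4 → ℝ}

theorem Alt.av_eq (h : Alt P f) {i j k l : Fin 4} (hij : i ≠ j)
    (hik : i ≠ k) (hil : i ≠ l) (hjk : j ≠ k) (hjl : j ≠ l) (hkl : k ≠ l) :
    av P f i = (P i - P j) - f i k • (P k - P j) - f i l • (P l - P j) := by
  have h1 := h.sum i
  rw [sum4 _ hij hik hil hjk hjl hkl, h.diag i] at h1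
  have h2 : f i j = 1 - f i k - f i l := by linarith
  unfold av
  rw [sum4 _ hij hik hil hjk hjl hkl, h.diag i, h2]
  module

theorem Alt.av_orth (h : Alt P f) {i j k : Fin 4} (hj : j ≠ i) (hk : k ≠ i) :
    ⟪av P f i, P j - P k⟫ = 0 := h.orth i j k hj hk

theorem Alt.perm (h : Alt P f) {i j k l : Fin 4} (hij : i ≠ j)
    (hik : i ≠ k) (hil : i ≠ l) (hjk : j ≠ k) (hjl : j ≠ l) (hkl : k ≠ l) :
    AffineIndependent ℝ ![P i, P j, P k, P l] := by
  have hinj : Function.Injective ![i, j, k, l] := by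
    intro a b hab
    fin_cases a <;> fin_cases b
    · rfl
    · exact absurd hab hij
    · exact absurd hab hik
    · exact absurd hab hil
    · exact absurd hab.symm hij
    · rfl
    · exact absurd hab hjk
    · exact absurd hab hjl
    · exact absurd hab.symm hik
    · exact absurd hab.symm hjk
    · rfl
    · exact absurd hab hkl
    · exact absurd hab.symm hil
    · exact absurd hab.symm hjl
    · exact absurd hab.symm hkl
    · rfl
  have h1 := h.aff.comp_embedding ⟨![i, j, k, l], hinj⟩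
  have e : P ∘ (⟨![i, j, k, l], hinj⟩ : Fin 4 ↪ Fin 4) = ![P i, P j, P k, P l] := by
    funext m
    fin_cases m <;> rfl
  rwa [e] at h1

/-- the foot of the altitude from `P l` -/
theorem Alt.foot (h : Alt P f) {i j k l : Fin 4} (hij : i ≠ j)
    (hik : i ≠ k) (hil : i ≠ l) (hjk : j ≠ k) (hjl : j ≠ l) (hkl : k ≠ l) :
    Foot (P i) (P j) (P k) (P l) (f l i) (f l j) (f l k) := by
  have h1 := h.sum l
  rw [sum4 _ hij hik hil hjk hjl hkl, h.diag l] at h1
  have e : f l i • P i + f l j • P j + f l k • P k = ∑ m, f l m • P m := by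
    rw [sum4 _ hij hik hil hjk hjl hkl, h.diag l]
    module
  refine ⟨h.perm hij hik hil hjk hjl hkl, by linarith, ?_, ?_⟩
  · rw [e]
    exact h.orth l j i hjl hil
  · rw [e]
    exact h.orth l k i hkl hil

theorem Alt.av_ne (h : Alt P f) (i : Fin 4) : av P f i ≠ 0 := by
  intro h0
  obtain ⟨j, hij⟩ := exists_one i
  obtain ⟨k, l, hik, hil, hjk, hjl, hkl⟩ := exists_two hij
  have h1 := h.av_eq hij hik hil hjk hjl hkl
  rw [h0] at h1
  have h2 := affineIndependent_iff.1 (h.perm hij hik hil hjk hjl hkl) Finset.univ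
    ![1, -1 + f i k + f i l, -f i k, -f i l] ?_ ?_ 0 (Finset.mem_univ _)
  · exact one_ne_zero h2
  · rw [Fin.sum_univ_four]
    show (1 : ℝ) + (-1 + f i k + f i l) + -f i k + -f i l = 0
    ring
  · rw [Fin.sum_univ_four]
    show (1 : ℝ) • P i + (-1 + f i k + f i l) • P j + (-f i k) • P k + (-f i l) • P l = 0
    rw [h1]
    module

/-- `f i j` times the square of the altitude from `P j` is symmetric -/
theorem Alt.symm (h : Alt P f) {i j : Fin 4} (hij : i ≠ j) :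
    f i j * ⟪av P f j, av P f j⟫ = f j i * ⟪av P f i, av P f i⟫ := by
  have key : ∀ {i j : Fin 4}, i ≠ j → ⟪av P f i, av P f j⟫ = -(f j i * ⟪av P f i, av P f i⟫) := by
    intro i j hij
    obtain ⟨k, l, hik, hil, hjk, hjl, hkl⟩ := exists_two hij
    -- av j in terms of `P i - P k`, ...
    have e1 := h.av_eq hjk hij.symm hjl hik.symm hkl hil
    have e2 := h.av_eq hik hij hil hjk.symm hkl hjl
    have o1 := h.av_orth (i := i) (j := j) (k := k) hij.symm hik.symm
    have o2 := h.av_orth (i := i) (j := l) (k := k) hil.symm hik.symm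
    have e3 : ⟪av P f i, P i - P k⟫ = ⟪av P f i, av P f i⟫ := by
      have e4 : P i - P k = av P f i + f i j • (P j - P k) + f i l • (P l - P k) := by
        rw [e2]
        module
      rw [e4, inner_add_right, inner_add_right, inner_smul_right, inner_smul_right, o1, o2]
      ring
    rw [e1, inner_sub_right, inner_sub_right, inner_smul_right, inner_smul_right, o1, o2, e3]
    ring
  have h1 := key hij
  have h2 := key hij.symm
  rw [real_inner_comm] at h2
  linarith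

theorem Alt.frame (h : Alt P f) {i j k l : Fin 4} (hij : i ≠ j)
    (hik : i ≠ k) (hil : i ≠ l) (hjk : j ≠ k) (hjl : j ≠ l) (hkl : k ≠ l) {g : ℝ}
    (hd : 1 - f l i * f i l ≠ 0) (hg : g * (1 - f l i * f i l) = f l j + f l i * f i j)
    (hgp : GP g (f i l)) : Dense (convexHull ℝ {P k, P j, P l, P i}) := by
  have ei := h.av_eq hik hij hil hjk.symm hkl hjl
  have el := h.av_eq hkl.symm hjl.symm hil.symm hjk.symm hik.symm hij.symm
  have e1 : (1 - f l i * f i l) • (P l - P k - g • (P j - P k)) = av P f l + f l i • av P f i := by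
    have e2 : (1 - f l i * f i l) • (P l - P k - g • (P j - P k)) =
        (1 - f l i * f i l) • (P l - P k) - (f l j + f l i * f i j) • (P j - P k) := by
      rw [← hg]
      module
    rw [e2, ei, el]
    module
  have e3 : P l - P k - g • (P j - P k) =
      (1 - f l i * f i l)⁻¹ • (av P f l + f l i • av P f i) := by
    rw [← e1, smul_smul, inv_mul_cancel₀ hd, one_smul]
  have o1 := h.av_orth (i := l) (j := j) (k := k) hjl hkl
  have o2 := h.av_orth (i := i) (j := j) (k := k) hij.symm hik.symm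
  have o3 := h.av_orth (i := i) (j := l) (k := k) hil.symm hik.symm
  have p1 : ⟪P l - P k - g • (P j - P k), P j - P k⟫ = 0 := by
    rw [e3, inner_smul_left, inner_add_left, inner_smul_left, o1, o2]
    simp
  refine transferP (h.perm hjk.symm hkl hik.symm hjl hij.symm hil.symm) p1 ?_ hgp
  have e4 : P i - P k - f i l • (P l - P k - g • (P j - P k)) =
      av P f i + (f i j + f i l * g) • (P j - P k) := by
    rw [ei]
    module
  rw [e4, inner_add_left, inner_smul_left, real_inner_comm _ (P j - P k), p1, inner_sub_right,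
    inner_smul_right, o2, o3]
  simp

/-- the relevant part of the parameter plane of the family F -/
def HF : Prop := ∀ u v w : ℝ, u + v + w = 1 → 0 ≤ w → w ≤ v → v ≤ u →
  ¬ (18 / 1000 ≤ w ∧ v ≤ 847 / 10000 ∧ 8365 / 10000 ≤ u) → GF v w

/-- the relevant part of the parameter plane of the family P -/
def HP : Prop := ∀ g w : ℝ, 1 / 60 ≤ w → w ≤ 1 / 12 → 2 * w - 1 / 60 ≤ g → g ≤ 1 / 6 → GP g w

/-- a foot in the face but not in the spot is enough -/
theorem HF.dense (hF : HF) {A B C D : E3} {u v w : ℝ} (h : Foot A B C D u v w) (hu : 0 ≤ u)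
    (hv : 0 ≤ v) (hw : 0 ≤ w)
    (h1 : ¬ (8365 / 10000 ≤ u ∧ (18 / 1000 ≤ v ∧ v ≤ 847 / 10000) ∧
      (18 / 1000 ≤ w ∧ w ≤ 847 / 10000)))
    (h2 : ¬ (8365 / 10000 ≤ v ∧ (18 / 1000 ≤ u ∧ u ≤ 847 / 10000) ∧
      (18 / 1000 ≤ w ∧ w ≤ 847 / 10000)))
    (h3 : ¬ (8365 / 10000 ≤ w ∧ (18 / 1000 ≤ u ∧ u ≤ 847 / 10000) ∧
      (18 / 1000 ≤ v ∧ v ≤ 847 / 10000))) :
    Dense (convexHull ℝ {A, B, C, D}) := by
  refine Foot.sorted (P := fun u v w => (0 ≤ u ∧ 0 ≤ v ∧ 0 ≤ w) ∧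
    ¬ (8365 / 10000 ≤ u ∧ (18 / 1000 ≤ v ∧ v ≤ 847 / 10000) ∧
      (18 / 1000 ≤ w ∧ w ≤ 847 / 10000)) ∧
    ¬ (8365 / 10000 ≤ v ∧ (18 / 1000 ≤ u ∧ u ≤ 847 / 10000) ∧
      (18 / 1000 ≤ w ∧ w ≤ 847 / 10000)) ∧
    ¬ (8365 / 10000 ≤ w ∧ (18 / 1000 ≤ u ∧ u ≤ 847 / 10000) ∧
      (18 / 1000 ≤ v ∧ v ≤ 847 / 10000))) ?_ ?_ ?_ h ⟨⟨hu, hv, hw⟩, h1, h2, h3⟩
  · rintro u v w ⟨⟨a, b, c⟩, d, e, f⟩
    exact ⟨⟨b, a, c⟩, e, d, fun ⟨x, y, z⟩ => f ⟨x, z, y⟩⟩
  · rintro u v w ⟨⟨a, b, c⟩, d, e, f⟩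
    exact ⟨⟨a, c, b⟩, fun ⟨x, y, z⟩ => d ⟨x, z, y⟩, f, e⟩
  · rintro u v w hs h1 h2 ⟨⟨a, b, c⟩, d, -, -⟩
    refine hF u v w hs c h1 h2 ?_
    rintro ⟨x, y, z⟩
    exact d ⟨z, ⟨by linarith, y⟩, ⟨x, by linarith⟩⟩

/-- a vertex whose foot is in the face but not in a spot, or the foot is in a spot -/
theorem Alt.dense_or_spot (hF : HF) (h : Alt P f) (h0 : ∀ i j, 0 ≤ f i j) (i : Fin 4) :
    Dense (convexHull ℝ {P 0, P 1, P 2, P 3}) ∨
      ∃ j, j ≠ i ∧ 8365 / 10000 ≤ f i j ∧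
        ∀ k, k ≠ i → k ≠ j → 18 / 1000 ≤ f i k ∧ f i k ≤ 847 / 10000 := by
  by_contra hc
  push Not at hc
  obtain ⟨hc1, hc2⟩ := hc
  apply hc1
  obtain ⟨j, hij⟩ := exists_one i
  obtain ⟨k, l, hik, hil, hjk, hjl, hkl⟩ := exists_two hij
  have hft := h.foot hjk hjl hij.symm hkl hik.symm hil.symm
  have key : ∀ {j k l : Fin 4}, i ≠ j → i ≠ k → i ≠ l → j ≠ k → j ≠ l → k ≠ l →
      ¬ (8365 / 10000 ≤ f i j ∧ (18 / 1000 ≤ f i k ∧ f i k ≤ 847 / 10000) ∧
      (18 / 1000 ≤ f i l ∧ f i l ≤ 847 / 10000)) := by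
    rintro j k l hij hik hil hjk hjl hkl ⟨a, b, c⟩
    obtain ⟨m, m1, m2, m3⟩ := hc2 j hij.symm a
    rcases mem_two hij hik hil hjk hjl hkl m1 m2 with rfl | rfl
    · exact absurd b.2 (not_le.2 (m3 b.1))
    · exact absurd c.2 (not_le.2 (m3 c.1))
  have hd := hF.dense hft (h0 i j) (h0 i k) (h0 i l) (key hij hik hil hjk hjl hkl)
    (key hik hij hil hjk.symm hkl hjl) (key hil hij hik hjl.symm hkl.symm hjk)
  have e : ({P j, P k, P l, P i} : Set E3) = {P 0, P 1, P 2, P 3} := by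
    have e1 : ({P j, P k, P l, P i} : Set E3) = P '' {j, k, l, i} := by
      simp [Set.image_insert_eq]
    have e2 : ({P 0, P 1, P 2, P 3} : Set E3) = P '' {0, 1, 2, 3} := by
      simp [Set.image_insert_eq]
    have e3 : ({j, k, l, i} : Set (Fin 4)) = {0, 1, 2, 3} := by
      have e4 : (Finset.univ : Finset (Fin 4)) = {j, k, l, i} :=
        univ4 hjk hjl hij.symm hkl hik.symm hil.symm
      have e5 : (Finset.univ : Finset (Fin 4)) = {0, 1, 2, 3} := by decide
      have e6 := congrArg (fun s : Finset (Fin 4) => (s : Set (Fin 4))) (e4.symm.trans e5)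
      simpa using e6
    rw [e1, e2, e3]
  rwa [e] at hd

/-- **all four feet are in the closed faces** -/
theorem Alt.dense (hF : HF) (hP : HP) (h : Alt P f) (h0 : ∀ i j, 0 ≤ f i j) :
    Dense (convexHull ℝ {P 0, P 1, P 2, P 3}) := by
  by_cases hx : ∃ i, ¬ ∃ j, j ≠ i ∧ 8365 / 10000 ≤ f i j ∧
        ∀ k, k ≠ i → k ≠ j → 18 / 1000 ≤ f i k ∧ f i k ≤ 847 / 10000
  · obtain ⟨i, hi⟩ := hx
    exact (h.dense_or_spot hF h0 i).resolve_right hi
  · push Not at hx
    have q0 : ∀ i, 0 < ⟪av P f i, av P f i⟫ := fun i => real_inner_self_pos.2 (h.av_ne i)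
    have z1 : ∀ i j, f i j * ⟪av P f i, av P f i⟫⁻¹ = f j i * ⟪av P f j, av P f j⟫⁻¹ := by
      intro i j
      by_cases hij : i = j
      · rw [hij]
      · have h1 := h.symm hij
        have qi := q0 i
        have qj := q0 j
        field_simp
        linarith
    have z2 : ∀ i j, j ≠ i → 0 ≤ f i j * ⟪av P f i, av P f i⟫⁻¹ := by
      intro i j _
      have := h0 i j
      have := q0 i
      positivity
    have z3 : ∀ i j k l : Fin 4, i ≠ j → i ≠ k → i ≠ l → j ≠ k → j ≠ l → k ≠ l →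
        ⟪av P f i, av P f i⟫⁻¹ = f i j * ⟪av P f i, av P f i⟫⁻¹ +
          f i k * ⟪av P f i, av P f i⟫⁻¹ + f i l * ⟪av P f i, av P f i⟫⁻¹ := by
      intro i j k l hij hik hil hjk hjl hkl
      have h1 := h.sum i
      rw [sum4 _ hij hik hil hjk hjl hkl, h.diag i] at h1
      have e : f i j * ⟪av P f i, av P f i⟫⁻¹ + f i k * ⟪av P f i, av P f i⟫⁻¹ +
          f i l * ⟪av P f i, av P f i⟫⁻¹ = (0 + f i j + f i k + f i l) *
            ⟪av P f i, av P f i⟫⁻¹ := by ring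
      rw [e, h1, one_mul]
    have z4 : ∀ i, 0 < ⟪av P f i, av P f i⟫⁻¹ := fun i => inv_pos.2 (q0 i)
    have z5 : ∀ i, ∃ j, Spot (fun i j => f i j * ⟪av P f i, av P f i⟫⁻¹)
        (fun i => ⟪av P f i, av P f i⟫⁻¹) i j := by
      intro i
      obtain ⟨j, h1, h2, h3⟩ := hx i
      have q1 : 0 < ⟪av P f i, av P f i⟫⁻¹ := inv_pos.2 (q0 i)
      refine ⟨j, h1, ?_, ?_, ?_⟩
      · exact mul_le_mul_of_nonneg_right h2 q1.le
      · intro k hk hk'
        exact mul_le_mul_of_nonneg_right (h3 k hk hk').1 q1.le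
      · intro k hk hk'
        exact mul_le_mul_of_nonneg_right (h3 k hk hk').2 q1.le
    obtain ⟨i, j, k, l, hij, hik, hil, hjk, hjl, hkl, hden, w1, w2, g1, g2⟩ :=
      caseA (c := fun i j => f i j * ⟪av P f i, av P f i⟫⁻¹)
        (h := fun i => ⟪av P f i, av P f i⟫⁻¹) z1 z2 z3 z4 z5
    have qi := q0 i
    have ql := q0 l
    have ew : f i l * ⟪av P f i, av P f i⟫⁻¹ / ⟪av P f i, av P f i⟫⁻¹ = f i l := by
      field_simp
    simp only [ew] at w1 w2 g1
    have hsym := h.symm hil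
    have hden' : 0 < 1 - f l i * f i l := by
      have e1 : ⟪av P f l, av P f l⟫⁻¹ * ⟪av P f i, av P f i⟫⁻¹ -
          (f l i * ⟪av P f l, av P f l⟫⁻¹) ^ 2 =
          ⟪av P f l, av P f l⟫⁻¹ * ⟪av P f i, av P f i⟫⁻¹ * (1 - f l i * f i l) := by
        field_simp
        linear_combination (f l i) * hsym
      rw [e1] at hden
      exact (mul_pos_iff_of_pos_left (by positivity)).1 hden
    have eg : (f l j * ⟪av P f l, av P f l⟫⁻¹ * ⟪av P f i, av P f i⟫⁻¹ +
        f l i * ⟪av P f l, av P f l⟫⁻¹ * (f i j * ⟪av P f i, av P f i⟫⁻¹)) /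
        (⟪av P f l, av P f l⟫⁻¹ * ⟪av P f i, av P f i⟫⁻¹ -
          (f l i * ⟪av P f l, av P f l⟫⁻¹) ^ 2) =
        (f l j + f l i * f i j) / (1 - f l i * f i l) := by
      have e1 : ⟪av P f l, av P f l⟫⁻¹ * ⟪av P f i, av P f i⟫⁻¹ -
          (f l i * ⟪av P f l, av P f l⟫⁻¹) ^ 2 =
          ⟪av P f l, av P f l⟫⁻¹ * ⟪av P f i, av P f i⟫⁻¹ * (1 - f l i * f i l) := by
        field_simp
        linear_combination (f l i) * hsym
      rw [e1]
      have := hden'.ne'
      field_simp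
    simp only [eg] at g1 g2
    have hd := h.frame hij hik hil hjk hjl hkl hden'.ne'
      (div_mul_cancel₀ _ hden'.ne') (hP _ _ w1 w2 g1 g2)
    have e : ({P k, P j, P l, P i} : Set E3) = {P 0, P 1, P 2, P 3} := by
      have e1 : ({P k, P j, P l, P i} : Set E3) = P '' {k, j, l, i} := by
        simp [Set.image_insert_eq]
      have e2 : ({P 0, P 1, P 2, P 3} : Set E3) = P '' {0, 1, 2, 3} := by
        simp [Set.image_insert_eq]
      have e3 : ({k, j, l, i} : Set (Fin 4)) = {0, 1, 2, 3} := by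
        have e4 : (Finset.univ : Finset (Fin 4)) = {k, j, l, i} :=
          univ4 hjk.symm hkl hik.symm hjl hij.symm hil.symm
        have e5 : (Finset.univ : Finset (Fin 4)) = {0, 1, 2, 3} := by decide
        have e6 := congrArg (fun s : Finset (Fin 4) => (s : Set (Fin 4))) (e4.symm.trans e5)
        simpa using e6
      rw [e1, e2, e3]
    rwa [e] at hd

end Pool.Agent.TET.H99
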