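import Pool.Agent.Helper99_TET.Main

/-!
# MP_c7c9bf_co: Ulam's bound for tetrahedra, the final statement of stage 2
-/

set_option autoImplicit false

namespace Pool.Agent.TET.H99

open MeasureTheory Set Filter Pool.Agent.UL3 Pool.Agent.UL3.H88 Pool.Agent.TET
open scoped ENNReal Topology RealInnerProductSpace

theorem Alt.dense_of_foot (hF : HF) {P : Fin 4 → E3} {f : Fin 4 → Fin 4 → ℝ} (h : Alt P f)
    {i : Fin 4} (h0 : ∀ j, 0 ≤ f i j)
    (hs : ¬ ∃ j, 8365 / 10000 ≤ f i j ∧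
      ∀ k, k ≠ i → k ≠ j → 18 / 1000 ≤ f i k ∧ f i k ≤ 847 / 10000) :
    Dense (convexHull ℝ {P 0, P 1, P 2, P 3}) := by
  -- make the other rows irrelevant
  obtain ⟨j, hij⟩ := exists_one i
  obtain ⟨k, l, hik, hil, hjk, hjl, hkl⟩ := exists_two hij
  have hft := h.foot hjk hjl hij.symm hkl hik.symm hil.symm
  have key : ∀ {j k l : Fin 4}, i ≠ j → i ≠ k → i ≠ l → j ≠ k → j ≠ l → k ≠ l →
      ¬ (8365 / 10000 ≤ f i j ∧ (18 / 1000 ≤ f i k ∧ f i k ≤ 847 / 10000) ∧
      (18 / 1000 ≤ f i l ∧ f i l ≤ 847 / 10000)) := by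
    rintro j k l hij hik hil hjk hjl hkl ⟨a, b, c⟩
    refine hs ⟨j, a, ?_⟩
    intro m m1 m2
    rcases mem_two hij hik hil hjk hjl hkl m1 m2 with rfl | rfl
    · exact b
    · exact c
  have hd := hF.dense hft (h0 j) (h0 k) (h0 l) (key hij hik hil hjk hjl hkl)
    (key hik hij hil hjk.symm hkl hjl) (key hil hij hik hjl.symm hkl.symm hjk)
  have e : ({P j, P k, P l, P i} : Set E3) = {P 0, P 1, P 2, P 3} := by
    have e1 : ({P j, P k, P l, P i} : Set E3) = P '' {j, k, l, i} := by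
      simp [Set.image_insert_eq]
    have e2 : ({P 0, P 1, P 2, P 3} : Set E3) = P '' {0, 1, 2, 3} := by
      simp [Set.image_insert_eq]
    have e3 : ({j, k, l, i} : Set (Fin 4)) = {0, 1, 2, 3} := by
      have e4 : (Finset.univ : Finset (Fin 4)) = {j, k, l, i} :=
        univ4 hjk hjl hij.symm hkl hik.symm hil.symm
      have e5 : (Finset.univ : Finset (Fin 4)) = {0, 1, 2, 3} := by decide
      have e6 := congrArg (fun s : Finset (Fin 4) => (s : Set (Fin 4))) (e4.symm.trans e5)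
      simpa using e6
    rw [e1, e2, e3]
  rwa [e] at hd

/-- Ulam's bound for every tetrahedron whose four altitudes have their feet in the opposite faces,
and for every tetrahedron with one altitude whose foot is in the opposite face outside the spots -/
theorem tetra :
    ∀ (P : Fin 4 → EuclideanSpace ℝ (Fin 3)) (f : Fin 4 → Fin 4 → ℝ), AffineIndependent ℝ P →
      (∀ i, f i i = 0) → (∀ i, ∑ j, f i j = 1) →
      (∀ i j k, j ≠ i → k ≠ i → inner ℝ (P i - ∑ m, f i m • P m) (P j - P k) = 0) →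
      ((∀ i j, 0 ≤ f i j) ∨
        ∃ i, (∀ j, 0 ≤ f i j) ∧ ¬ ∃ j, 8365 / 10000 ≤ f i j ∧
          ∀ k, k ≠ i → k ≠ j → 18 / 1000 ≤ f i k ∧ f i k ≤ 847 / 10000) →
      ∃ g : ℕ → (EuclideanSpace ℝ (Fin 3) ≃ᵢ EuclideanSpace ℝ (Fin 3)),
        (∀ i j : ℕ, i ≠ j →
          Disjoint (interior ((g i) '' (convexHull ℝ (Set.range P))))
            (interior ((g j) '' (convexHull ℝ (Set.range P))))) ∧
        ENNReal.ofReal (Real.pi / (3 * Real.sqrt 2)) ≤
          Filter.limsup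
            (fun R : ℝ =>
              volume ((⋃ i : ℕ, (g i) '' (convexHull ℝ (Set.range P))) ∩
                  Metric.ball (0 : EuclideanSpace ℝ (Fin 3)) R) /
                volume (Metric.ball (0 : EuclideanSpace ℝ (Fin 3)) R))
            Filter.atTop := by
  intro P f h hd hs ho hc
  rw [range4]
  rcases hc with hc | ⟨i, h0, h1⟩
  · exact Alt.dense hF hP ⟨h, hd, hs, ho⟩ hc
  · exact Alt.dense_of_foot hF ⟨h, hd, hs, ho⟩ h0 h1

end Pool.Agent.TET.H99
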